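import Pool.Agent.H25.PR.I5

/-!
# MP_3addf4_an: almost reducibility of pseudo-rotations with generic rotation number
Notions (module `Pool.Agent.H25.PR.Defs`): `Dsk` closed unit disc, `e t = exp (2 π i t)`,
`APair ⊤ h h'`: `h`, `h'` are mutually inverse bijections of the disc, `C^∞` up to the boundary, with
Jacobian determinant `1`; `PsRot f f'`: `f` is a `C^∞` pseudo-rotation with inverse `f'`;
`HasRot f α`: the boundary map has a lift with translation number `α`; `CTo s`: convergence in `C^s` on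
the closed disc.
-/

open Complex Set Metric Topology Filter

namespace Pool.Agent.Results.MP_3addf4_an.GenericRotationNumber

open Pool.Agent.H25.PR

/-- almost reducible: conjugates of `f` by area preserving `C^∞` diffeomorphisms converge to the
rotation in the `C^∞` topology -/
def AlmostReducible (f : ℂ → ℂ) (α : ℝ) : Prop :=
  ∃ h h' : ℕ → ℂ → ℂ, (∀ n, APair ⊤ (h n) (h' n)) ∧
    ∀ s, CTo s (fun n z => h n (f (h' n z))) (fun z => e α * z)

/-- `f` is a `C^∞` limit of conjugates of the rotation -/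
def LimitOfRotations (f : ℂ → ℂ) (α : ℝ) : Prop :=
  ∃ h h' : ℕ → ℂ → ℂ, (∀ n, APair ⊤ (h n) (h' n)) ∧
    ∀ s, CTo s (fun n z => h' n (e α * h n z)) f

theorem result : ∃ G : Set ℝ, IsGδ G ∧ Dense G ∧ ∀ α ∈ G, Irrational α ∧
    (∀ f f' : ℂ → ℂ, PsRot f f' → HasRot f α → AlmostReducible f α ∧ LimitOfRotations f α) ∧
    ∀ f f' g g' : ℂ → ℂ, PsRot f f' → HasRot f α → PsRot g g' → HasRot g α →
      ∃ h h' : ℕ → ℂ → ℂ, (∀ n, APair ⊤ (h n) (h' n)) ∧
        ∀ s, CTo s (fun n z => h n (f (h' n z))) g := by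
  obtain ⟨G, hG, h1, h2⟩ := mem_residual.1 main
  refine ⟨G, h1, h2, fun α hα => ?_⟩
  obtain ⟨hirr, hm⟩ := hG hα
  refine ⟨hirr, fun f f' hf hr => ?_, fun f f' g g' hf hr hg hr' => ?_⟩
  · obtain ⟨hn, hn', a, b, c⟩ := hm f f' hf hr
    exact ⟨⟨hn, hn', a, b⟩, hn, hn', a, c⟩
  · obtain ⟨hn, hn', a, b, -⟩ := hm f f' hf hr
    obtain ⟨kn, kn', a', -, c'⟩ := hm g g' hg hr'
    exact conj_dense hf.pair hg.pair.smooth a a' b c'

end Pool.Agent.Results.MP_3addf4_an.GenericRotationNumber
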